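import Pool.Agent.C2.Stmts

/-!
# Row KDW of squad C2M (MP_503f8d_mp): weighted kernel duality

Proof with a primitive additive character of `F` (values in a cyclotomic field).
-/

set_option autoImplicit false

namespace Pool.Agent.C2.H49

open Finset Pool.Agent.C2

theorem psi_sum {F K ι : Type} [Field F] [Field K] (ψ : AddChar F K) (s : Finset ι)
    (f : ι → F) : ψ (∑ i ∈ s, f i) = ∏ i ∈ s, ψ (f i) := by
  classical
  refine Finset.induction_on s (by simp) ?_
  intro a s ha ih
  rw [Finset.sum_insert ha, Finset.prod_insert ha, AddChar.map_add_eq_mul, ih]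

theorem prodsum {F K ι : Type} [Fintype F] [Field K] [Fintype ι] [DecidableEq ι]
    (g : ι → F → K) : ∑ z : ι → F, ∏ i, g i (z i) = ∏ i, ∑ c, g i c := by
  rw [Finset.prod_univ_sum, Fintype.piFinset_univ]

theorem orth {F K Y : Type} [Field F] [Fintype F] [DecidableEq F] [Field K] [Fintype Y]
    [DecidableEq Y]
    (ψ : AddChar F K) (hψ : ψ.IsPrimitive) (w : Y → F) :
    ∑ z : Y → F, ψ (∑ y, z y * w y) =
      if ∀ y, w y = 0 then (Fintype.card F : K) ^ Fintype.card Y else 0 := by
  classical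
  have h1 : ∀ z : Y → F, ψ (∑ y, z y * w y) = ∏ y, ψ (z y * w y) := fun z => psi_sum ψ _ _
  rw [Finset.sum_congr rfl fun z _ => h1 z, prodsum (fun y c => ψ (c * w y))]
  have h2 : ∀ y, ∑ c : F, ψ (c * w y) = if w y = 0 then (Fintype.card F : K) else 0 := by
    intro y
    rw [AddChar.sum_mulShift (w y) hψ]
    split_ifs <;> simp
  rw [Finset.prod_congr rfl fun y _ => h2 y]
  by_cases h : ∀ y, w y = 0
  · rw [if_pos h]
    simp [h]
  · rw [if_neg h]
    obtain ⟨y, hy⟩ := not_forall.1 h
    exact Finset.prod_eq_zero (Finset.mem_univ y) (if_neg hy)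

theorem card_sum {K α : Type} [Field K] [Fintype α] (P : α → Prop) [DecidablePred P] :
    (Nat.card {x // P x} : K) = ∑ x, if P x then 1 else 0 := by
  rw [Nat.card_eq_fintype_card, Fintype.card_subtype, Finset.card_filter]
  push_cast
  rfl

theorem wsum {F K N : Type} [Field F] [Fintype F] [DecidableEq F] [Field K] [Fintype N]
    [DecidableEq N] (ψ : AddChar F K) (hψ : ψ.IsPrimitive) (w : N → F) :
    ∑ b : N → F, ((wt b : ℤ) : K) * ψ (∑ n, b n * w n) =
      if ∀ n, w n ≠ 0 then (Fintype.card F : K) ^ Fintype.card N else 0 := by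
  have h1 : ∀ b : N → F, ((wt b : ℤ) : K) * ψ (∑ n, b n * w n) =
      ∏ n, (((if b n = 0 then (Fintype.card F : K) else 0) - 1) * ψ (b n * w n)) := by
    intro b
    rw [psi_sum, Finset.prod_mul_distrib]
    congr 1
    unfold wt
    push_cast
    rfl
  rw [Finset.sum_congr rfl fun b _ => h1 b,
    prodsum (fun n c => ((if c = 0 then (Fintype.card F : K) else 0) - 1) * ψ (c * w n))]
  have h2 : ∀ n, ∑ c : F, ((if c = 0 then (Fintype.card F : K) else 0) - 1) * ψ (c * w n) =
      if w n ≠ 0 then (Fintype.card F : K) else 0 := by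
    intro n
    have h3 : ∀ c : F, ((if c = 0 then (Fintype.card F : K) else 0) - 1) * ψ (c * w n) =
        (if c = 0 then (Fintype.card F : K) else 0) - ψ (c * w n) := by
      intro c
      by_cases hc : c = 0
      · rw [hc, if_pos rfl, zero_mul, AddChar.map_zero_eq_one, mul_one]
      · rw [if_neg hc]
        ring
    rw [Finset.sum_congr rfl fun c _ => h3 c, Finset.sum_sub_distrib,
      AddChar.sum_mulShift (w n) hψ, Finset.sum_ite_eq' Finset.univ (0 : F)]
    by_cases hw : w n = 0
    · simp [hw]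
    · simp [hw]
  rw [Finset.prod_congr rfl fun n _ => h2 n]
  by_cases h : ∀ n, w n ≠ 0
  · rw [if_pos h]
    simp [h]
  · rw [if_neg h]
    obtain ⟨n, hn⟩ := not_forall.1 h
    exact Finset.prod_eq_zero (Finset.mem_univ n) (if_neg hn)

theorem core {F K N X Y : Type} [Field F] [Fintype F] [DecidableEq F] [Field K]
    [Fintype N] [DecidableEq N] [Fintype X] [Fintype Y] (ψ : AddChar F K) (hψ : ψ.IsPrimitive)
    (M : N → Y → F) (C : X → Y → F) :
    (Fintype.card F : K) ^ Fintype.card Y *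
      ∑ b : N → F, ((wt b : ℤ) : K) *
        (Nat.card {x : X → F // ∀ y, ∑ n, b n * M n y + ∑ i, x i * C i y = 0} : K) =
    (Fintype.card F : K) ^ (Fintype.card N + Fintype.card X) *
      (Nat.card {z : Y → F // (∀ i, ∑ y, C i y * z y = 0) ∧ ∀ n, ∑ y, M n y * z y ≠ 0} : K) := by
  classical
  have harg : ∀ (b : N → F) (x : X → F) (z : Y → F),
      ∑ y, z y * (∑ n, b n * M n y + ∑ i, x i * C i y) =
        ∑ n, b n * (∑ y, M n y * z y) + ∑ i, x i * (∑ y, C i y * z y) := by
    intro b x z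
    simp only [mul_add, Finset.sum_add_distrib, Finset.mul_sum]
    congr 1
    · rw [Finset.sum_comm]
      refine Finset.sum_congr rfl fun n _ => Finset.sum_congr rfl fun y _ => ?_
      ring
    · rw [Finset.sum_comm]
      refine Finset.sum_congr rfl fun n _ => Finset.sum_congr rfl fun y _ => ?_
      ring
  have h1 : ∀ b : N → F, (Fintype.card F : K) ^ Fintype.card Y *
      (Nat.card {x : X → F // ∀ y, ∑ n, b n * M n y + ∑ i, x i * C i y = 0} : K) =
      ∑ z : Y → F, ψ (∑ n, b n * (∑ y, M n y * z y)) *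
        ∑ x : X → F, ψ (∑ i, x i * (∑ y, C i y * z y)) := by
    intro b
    rw [card_sum, Finset.mul_sum]
    have h2 : ∀ x : X → F, (Fintype.card F : K) ^ Fintype.card Y *
        (if ∀ y, ∑ n, b n * M n y + ∑ i, x i * C i y = 0 then (1 : K) else 0) =
        ∑ z : Y → F, ψ (∑ n, b n * (∑ y, M n y * z y)) *
          ψ (∑ i, x i * (∑ y, C i y * z y)) := by
      intro x
      rw [mul_ite, mul_one, mul_zero, ← orth ψ hψ]
      refine Finset.sum_congr rfl fun z _ => ?_
      rw [harg b x z, AddChar.map_add_eq_mul]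
    rw [Finset.sum_congr rfl fun x _ => h2 x, Finset.sum_comm]
    refine Finset.sum_congr rfl fun z _ => ?_
    rw [Finset.mul_sum]
  have h3 : (Fintype.card F : K) ^ Fintype.card Y *
      ∑ b : N → F, ((wt b : ℤ) : K) *
        (Nat.card {x : X → F // ∀ y, ∑ n, b n * M n y + ∑ i, x i * C i y = 0} : K) =
      ∑ z : Y → F, (∑ b : N → F, ((wt b : ℤ) : K) * ψ (∑ n, b n * (∑ y, M n y * z y))) *
        ∑ x : X → F, ψ (∑ i, x i * (∑ y, C i y * z y)) := by
    rw [Finset.mul_sum]
    have h4 : ∀ b : N → F, (Fintype.card F : K) ^ Fintype.card Y * (((wt b : ℤ) : K) *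
        (Nat.card {x : X → F // ∀ y, ∑ n, b n * M n y + ∑ i, x i * C i y = 0} : K)) =
        ∑ z : Y → F, (((wt b : ℤ) : K) * ψ (∑ n, b n * (∑ y, M n y * z y))) *
          ∑ x : X → F, ψ (∑ i, x i * (∑ y, C i y * z y)) := by
      intro b
      rw [mul_left_comm, h1 b, Finset.mul_sum]
      refine Finset.sum_congr rfl fun z _ => ?_
      rw [mul_assoc]
    rw [Finset.sum_congr rfl fun b _ => h4 b, Finset.sum_comm]
    refine Finset.sum_congr rfl fun z _ => ?_
    rw [Finset.sum_mul]
  rw [h3, card_sum, Finset.mul_sum]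
  refine Finset.sum_congr rfl fun z _ => ?_
  rw [wsum ψ hψ, orth ψ hψ]
  by_cases ha : ∀ n, ∑ y, M n y * z y ≠ 0
  · by_cases hb : ∀ i, ∑ y, C i y * z y = 0
    · rw [if_pos ha, if_pos hb, if_pos ⟨hb, ha⟩, mul_one, pow_add]
    · have hc : ¬ ((∀ i, ∑ y, C i y * z y = 0) ∧ ∀ n, ∑ y, M n y * z y ≠ 0) :=
        fun h => hb h.1
      rw [if_neg hb, if_neg hc, mul_zero, mul_zero]
  · have hc : ¬ ((∀ i, ∑ y, C i y * z y = 0) ∧ ∀ n, ∑ y, M n y * z y ≠ 0) :=
      fun h => ha h.2
    rw [if_neg ha, if_neg hc, mul_zero, zero_mul]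

/-- **KDW** -/
theorem kdw : KdwStmt := by
  intro F _ _ _ N X Y _ _ _ _ M C
  have hchar : ringChar ℚ ≠ ringChar F := by
    intro h
    have h0 : ringChar ℚ = 0 := ringChar.eq_zero
    have h1 : CharP F 0 := by
      have := ringChar.charP F
      rwa [← h, h0] at this
    haveI : CharZero F := CharP.charP_to_charZero F
    exact not_finite F
  let P := AddChar.FiniteField.primitiveChar F ℚ hchar
  haveI : CharZero (CyclotomicField P.n ℚ) := algebraRat.charZero _
  have h := core P.char P.prim M C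
  exact_mod_cast h

end Pool.Agent.C2.H49
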